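import Pool.Agent.Q17.AM.Stm5

/-!
# Statements of the parts of project RB (reduction to blocks stable under all Galois automorphisms)

`Wr G A A` is the regular wreath product of `G` with the finite group `A`. Library: `S_ZPR` (`t_ZPR` in
`Q150.WR.ZPR`), `S_MMX` (`t_MMX` in `Q229.DC.MMX`), `H254R3.IN` (`omega`, `IsBlock`, `blockCoeff`, `Om`,
`red_Om`, `Om_blockCoeff`, `blockCoeff_mem`), `Q17.AM.*`; `Q162.AM.CCL`, `Q166.AM.BLK`, `Q166.AM.COR`,
`Q166.AM.TRN` contain similar proofs for another kind of block of `Wc G r`.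
-/

set_option autoImplicit false

open scoped Classical

noncomputable section

namespace Pool.Agent.Q17.RB

open Pool.Agent.H254R3.IN hiding NN
open Pool.Agent.Q17.WR
open Pool.Agent.Q17.DC
open Pool.Agent.Q17.AM

section

variable {G A : Type} [Group G] [Group A] [Fintype A]

/-- the character induced from the character `prf f` of the base group -/
def nca (f : A → G → ℂ) (x : Wr G A A) : ℂ :=
  if x.right = 1 then ∑ a : A, prf (fun ω => f (a * ω)) x.left else 0

/-- the characters of the regular wreath product over the products of members of `β ω` -/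
def FX (β : A → Set (G → ℂ)) : Set (Wr G A A → ℂ) :=
  {χ | ∃ f : A → G → ℂ, (∀ ω, f ω ∈ β ω) ∧ χ = nca f}

/-- the subgroup of the base group with all components in `D` -/
def Da (A : Type) [Group A] (D : Subgroup G) : Subgroup (Wr G A A) where
  carrier := {x | x.right = 1 ∧ ∀ ω, x.left ω ∈ D}
  one_mem' := ⟨rfl, fun _ => D.one_mem⟩
  mul_mem' := by
    rintro x y ⟨hx, hx'⟩ ⟨hy, hy'⟩
    refine ⟨by rw [SemidirectProduct.mul_right, hx, hy, one_mul], fun ω => ?_⟩
    rw [SemidirectProduct.mul_left]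
    exact D.mul_mem (hx' ω) (hy' _)
  inv_mem' := by
    rintro x ⟨hx, hx'⟩
    refine ⟨by rw [SemidirectProduct.inv_right, hx, inv_one], fun ω => ?_⟩
    rw [SemidirectProduct.inv_left]
    exact D.inv_mem (hx' _)

end

/-- JOB FXI (`t_FXI : S_ZPR → S_FXI`). Characters over families with values in disjoint sets. Proof.
`nca f` is the character induced from the irreducible character `prf f` of the base group `M` (`S_ZPR`);
its conjugates are the `prf (f ∘ a)` (`f ∘ a = fun ω => f (a * ω)`), and they are different for different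
`a`: if `f (a * ω) = f ω` (`ω = 1`) then `β a` and `β 1` are not disjoint, so `a = 1`. So the norm of
`nca f` is `1` (compute it as in `Q162.AM.CLS`). If `nca f = nca f'` then, restricted to `M`, the sums of
the irreducible characters `prf (f ∘ a)` and `prf (f' ∘ a)` agree, so `f' = f ∘ a` for some `a`
(`S_ZPR`, linear independence), and `a = 1` as before. -/
def S_FXI : Prop := ∀ (G A : Type) [Group G] [Fintype G] [Group A] [Fintype A]
  (β : A → Set (G → ℂ)), (∀ ω, ∀ χ ∈ β ω, IsIrr χ) → (∀ ω ω', ω ≠ ω' → Disjoint (β ω) (β ω')) →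
  (∀ f : A → G → ℂ, (∀ ω, f ω ∈ β ω) → IsIrr (nca f)) ∧
  ∀ f f' : A → G → ℂ, (∀ ω, f ω ∈ β ω) → (∀ ω, f' ω ∈ β ω) → nca f = nca f' → f = f'

/-- JOB FXB (`t_FXB : S_ZPR → S_FXI → S_MMX → S_FXB`). The block of the wreath product over different
blocks with the same defect group; `p` may divide `|A|`. Notation: `Γ = Wr G A A`, `M` the base group,
`x_a = (ω ↦ x.left (a * ω))` for `x.right = 1`. Proof. (0) Different blocks are disjoint. (1)
`blockCoeff (FX β) x = ∑ a, ∏ ω, blockCoeff (β ω) (x_a ω)` for `x.right = 1` and `0` otherwise: sum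
`nca f 1 * nca f x⁻¹` over the `f` (`S_FXI`: `f ↦ nca f` is injective), `nca f 1 = |A| ∏ ω, f ω 1`,
`|Γ| = |A| |G| ^ |A|`. (2) `omega (nca f) x = 0` for `x.right ≠ 1`, and for `x.right = 1`
`omega (nca f) x = ∑ K, ∏ ω, omega (f ω) (K ω)`, where `K` runs over the classes of `M` in the class of
`x` in `Γ` (a class `K` of `M` is a product of classes of `G`, `K ω` stands for the `ω`-component of a
representative): the class of `x` in `Γ` is the union of the classes in `M` of the `x_a`, `∑ nca f y` over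
the `y` in it is `|A| ∑ prf f y` (all `prf (f ∘ a)` have the same sum), so
`omega (nca f) x = ∑ y ~ x, prf f y / prf f 1`. So all members of `FX β` have congruent central
characters. (3) Conversely let `χ ∈ Irr(Γ)` have a central character congruent to the one of a member
of `FX β`. The class function `E = blockCoeff (FX β)` has values in `O` (by (1) and `blockCoeff_mem`)
and `Om E ψ` is `1` for `ψ ∈ FX β`, `0` for the other `ψ ∈ Irr` (`Om_blockCoeff`); `red_Om` shows
`χ ∈ FX β`. (4) Defect group. Let `χ ∈ FX β`. As `Om E χ = 1`, by `red_Om` there is `x` with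
`E x ∉ O.nonunits` and `omega χ x ∉ O.nonunits`; `x.right = 1`. By (1) there is `a` with
`blockCoeff (β ω) (x_a ω) ∉ O.nonunits` for all `ω`, so by `S_MMX` all `p`-subgroups of `C(x.left ω)`
are conjugate into `D`, for all `ω`. By (2) there is a class `K` of `M`, the class of some `x_b`, with
`omega (f ω) (x_b ω) ∉ O.nonunits` for all `ω`, so `D` is conjugate into `C(x.left ω)` for all `ω`. After
conjugation of `x` by an element of `M` the subgroup `D` is a Sylow `p`-subgroup of `C(x.left ω)` for all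
`ω`. So `Da A D` is a Sylow `p`-subgroup of `C_M(x)`. The index of `C_M(x)` in `C_Γ(x)` is the order of
the group `A_x` of the `a` with `x_a` conjugate to `x` under `M`, and by (1) `E x` is `|A_x|` times an
element of `O` (the sum over `a` is constant on the cosets of `A_x`); so `p` does not divide
`|A_x|`. -/
def S_FXB : Prop := ∀ (G A : Type) [Group G] [Fintype G] [Group A] [Fintype A] (p : ℕ)
  [Fact p.Prime] (O : ValuationSubring ℂ), (p : ℂ) ∈ O.nonunits → ∀ β : A → Set (G → ℂ),
  (∀ ω, IsBlock O (β ω)) → Function.Injective β → ∀ D : Subgroup G,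
  (∀ ω, IsDefectGroup p O (β ω) D) →
  IsBlock O (FX β) ∧ IsDefectGroup p O (FX β) (Da A D) ∧
  ∀ χ ∈ FX β, (∀ x : Wr G A A, x.right ≠ 1 → omega χ x = 0) ∧
    ∀ x : Wr G A A, x.right = 1 → ∀ f : A → G → ℂ, (∀ ω, f ω ∈ β ω) → χ = nca f →
      omega χ x = ∑ᶠ y : {y : A → G // IsConj x (⟨y, 1⟩ : Wr G A A)}, prf f y.1 / prf f 1

/-- JOB TRA. The normaliser of `Da A D` (the same proof as for `S_TRN`, `Q166.AM.TRN`) -/
def S_TRA : Prop := ∀ (G A : Type) [Group G] [Group A] (D : Subgroup G),
  ∃ e : Wr (NN D) A A ≃* NN (Da A D), (∀ x, (e x : Wr G A A).right = x.right) ∧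
    ∀ x ω, (e x : Wr G A A).left ω = (x.left ω : G)

/-- JOB FXC (`t_FXC : S_ZPR → S_FXI → S_FXB → S_FXC`). The Brauer correspondent of `FX β`. Proof. The
family `b` is injective: `b ω = b ω'` gives congruent central characters for `β ω` and `β ω'`, so
`β ω = β ω'`. `FX b` is a block of `Wr (NN D) A A` with the defect group `Da A (D in NN D)` by `S_FXB`;
transport along `e`. Let `χ = nca f ∈ FX β`, `θ = nca h ∘ e⁻¹`, `h ω ∈ b ω`, `x ∈ Γ = Wr G A A`. If
`x.right ≠ 1` both `omega χ x` and the sum over the `y` vanish. If `x.right = 1` then, by `S_FXB`,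
`omega χ x` is the sum over the classes `K` of the base group `M` in the class of `x` of
`∏ ω, omega (f ω) (K ω)`, and the sum of `θ y / θ 1` over the `y ∈ NN (Da A D)` conjugate to `x` in `Γ`
is the sum over the same `K` of `∏ ω, (∑ over the y ∈ NN D conjugate to K ω in G of h ω y / h ω 1)`
(`θ y / θ 1` is the average over `a` of `prf (h ∘ a) y / prf h 1`, and the set of the `y` is stable under
`A`). The factors are congruent. -/
def S_FXC : Prop := ∀ (G A : Type) [Group G] [Fintype G] [Group A] [Fintype A] (p : ℕ)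
  [Fact p.Prime] (O : ValuationSubring ℂ), (p : ℂ) ∈ O.nonunits → ∀ β : A → Set (G → ℂ),
  (∀ ω, IsBlock O (β ω)) → Function.Injective β → ∀ D : Subgroup G,
  (∀ ω, IsDefectGroup p O (β ω) D) → ∀ b : A → Set (NN D → ℂ),
  (∀ ω, IsBrauerCorrespondent p O D (β ω) (b ω)) → ∀ e : Wr (NN D) A A ≃* NN (Da A D),
  (∀ x, (e x : Wr G A A).right = x.right) → (∀ x ω, (e x : Wr G A A).left ω = (x.left ω : G)) →
  Function.Injective b ∧
  IsBrauerCorrespondent p O (Da A D) (FX β) {θ | (fun x => θ (e x)) ∈ FX b}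

/-- the Galois conjugate of `B` by the power map with exponent `k` -/
def gc {G : Type} [Group G] (k : ℕ) (B : Set (G → ℂ)) : Set (G → ℂ) :=
  {χ | ∃ θ ∈ B, χ = fun g => θ (g ^ k)}

/-- JOB GCB. Galois conjugates of blocks. Proof. Let `n = |G|`, `k k' ≡ 1` modulo `n`. (1) is classical:
values of characters are sums of `n`-th roots of unity (`exp_of` in `Q17.TP.Fin`), and
`g ↦ χ (g ^ k)` is the conjugate of `χ` by an automorphism of `ℂ` with `ζ ↦ ζ ^ k` for the `n`-th roots
of unity (such an automorphism exists: for one of `ℚ(ζ_n)` see `IsCyclotomicExtension.autEquivPow`, it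
extends to `ℂ`; search the pool for power maps of characters; `IsIrr` follows from the norm:
`∑ χ (g ^ k) χ (g ^ (-k)) = ∑ χ g χ g⁻¹`, `t_IRN`). (2) `omega (χ ∘ pow k) x = omega χ (x ^ k)`, since the
classes of `x` and `x ^ k` have the same size (`C(x) = C(x ^ k)`), so congruences of central characters
are preserved; the inverse operation is `gc k'`. `blockCoeff (gc k B) x = blockCoeff B (x ^ k)`, so if `x`
is a defect class for `B` then `x ^ k'` is one for `gc k B`, with the same centraliser. (3) For `NN D` the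
number `k` is prime to its order as well, and `y ↦ y ^ k` maps the `y ∈ NN D` conjugate to `x` onto those
conjugate to `x ^ k`. (4) For `s` and `k` as in (4) `s (θ g) = θ (g ^ k)` (`exp_of`). -/
def S_GCB : Prop := ∀ (G : Type) [Group G] [Fintype G] (p : ℕ) [Fact p.Prime]
  (O : ValuationSubring ℂ), (p : ℂ) ∈ O.nonunits → ∀ k : ℕ, Nat.Coprime k (Nat.card G) →
  (∀ χ : G → ℂ, IsIrr χ → IsIrr (fun g => χ (g ^ k))) ∧
  ∀ B : Set (G → ℂ), IsBlock O B → IsBlock O (gc k B) ∧
  (∀ D : Subgroup G, IsDefectGroup p O B D → IsDefectGroup p O (gc k B) D ∧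
    ∀ b : Set (NN D → ℂ), IsBrauerCorrespondent p O D B b →
      IsBrauerCorrespondent p O D (gc k B) (gc k b)) ∧
  ∀ s : ℂ ≃+* ℂ, (∀ ζ : ℂ, ζ ^ Nat.card G = 1 → s ζ = ζ ^ k) → ∀ χ ∈ B, ∀ g, s (χ g) = χ (g ^ k)

/-- the set `B` is stable under all automorphisms of `ℂ` -/
def Gst {G : Type} (B : Set (G → ℂ)) : Prop := ∀ s : ℂ ≃+* ℂ, St s B

/-- JOB RAT (`t_RAT : S_FXI → S_FXB → S_TRA → S_FXC → S_GCB → S_HT → S_FMT → S_RAT`). Blocks stable under all Galois
automorphisms. Proof. Let `n = |G|`. The group `(ZMod n)ˣ` acts on the set of blocks of `G` by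
`k • B = gc k.val.val B` (`S_GCB`; `gc` depends only on `k` modulo `n`). Let `U` be the stabiliser of
`B`, `A = (ZMod n)ˣ ⧸ U` (a finite abelian group) and `β (k U) = gc k B`, `b' (k U) = gc k b`; `β` is
well defined and injective, and `b'` is well defined: if `gc k B = B` then `gc k b` and `b` are both
correspondents of `B`, so equal by the uniqueness in `S_FMT`. Put `Γ = Wr G A A`, `B' = FX β`,
`D' = Da A D`, the correspondent of `S_FXC` with `e` from `S_TRA`. `B'` is stable: let `s` be an automorphism and `k` with `s ζ = ζ ^ k` for the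
`n`-th roots of unity; for `f ω ∈ β ω` put `h ω = s ∘ f (k⁻¹ * ω)`, a member of `β ω`; then
`s ∘ nca f = nca (s ∘ f)` and `s ∘ f = h ∘ (k * ·)`, so `s ∘ nca f = nca h` (`nca` does not change if the
family is composed with a left multiplication). The same for `b'`. `D' ≃* (A → D)`. Numbers: `f ↦ nca f`
is injective (`S_FXI`), so `|B'| = ∏ |β ω| = |B| ^ |A|`. `nca f 1 = |A| ∏ ω, f ω 1`, and
`|Γ : D'| = |A| |G : D| ^ |A|`, so by `S_HT` `nca f` has height zero if and only if all `f ω` have. If `s`
fixes `B` (then it fixes all `β ω`) the character `nca f` is fixed by `s` if and only if all `f ω` are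
(`S_FXI`), and the members of `β ω` of height zero fixed by `s` correspond to those of `B`
(`θ ↦ θ ∘ pow k` commutes with `s`). -/
def S_RAT : Prop := ∀ (G : Type) [Group G] [Fintype G] (p : ℕ) [Fact p.Prime]
  (O : ValuationSubring ℂ), (p : ℂ) ∈ O.nonunits → ∀ (B : Set (G → ℂ)) (D : Subgroup G)
  (b : Set (NN D → ℂ)), Dt p O B D b → ∃ (A : Type) (_ : CommGroup A) (_ : Fintype A)
  (β : A → Set (G → ℂ)) (b' : Set (NN (Da A D) → ℂ)), β 1 = B ∧
  Dt p O (FX β) (Da A D) b' ∧ Gst (FX β) ∧ Gst b' ∧
  (FX β).ncard = B.ncard ^ Fintype.card A ∧ ∀ s : ℂ ≃+* ℂ, St s B → St s b →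
  (Fxd (Irr0 p (Da A D) (FX β)) s).ncard = (Fxd (Irr0 p D B) s).ncard ^ Fintype.card A ∧
  (Fxd (Irr0 p ((Da A D).subgroupOf (NN (Da A D))) b') s).ncard =
    (Fxd (Irr0 p (D.subgroupOf (NN D)) b) s).ncard ^ Fintype.card A

end Pool.Agent.Q17.RB
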