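import Mathlib

/-!
# Bounds up to a small power
-/

set_option autoImplicit false

namespace Pool.Agent.Q17.RB

lemma bern (a n : ℕ) : a ^ n * (a + n) ≤ (a + 1) ^ n * a := by
  induction n with
  | zero => simp
  | succ n ih =>
      calc a ^ (n + 1) * (a + (n + 1)) = a ^ n * (a * (a + (n + 1))) := by ring
        _ ≤ a ^ n * ((a + 1) * (a + n)) := Nat.mul_le_mul_left _ (by nlinarith)
        _ = (a + 1) * (a ^ n * (a + n)) := by ring
        _ ≤ (a + 1) * ((a + 1) ^ n * a) := Nat.mul_le_mul_left _ ih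
        _ = (a + 1) ^ (n + 1) * a := by ring

lemma two_mul_pow_le {a : ℕ} (ha : 1 ≤ a) : 2 * a ^ a ≤ (a + 1) ^ a := by
  have h := bern a a
  have h1 : a * (2 * a ^ a) ≤ a * (a + 1) ^ a := by
    calc a * (2 * a ^ a) = a ^ a * (a + a) := by ring
      _ ≤ (a + 1) ^ a * a := h
      _ = a * (a + 1) ^ a := by ring
  exact Nat.le_of_mul_le_mul_left h1 (by omega)

/-- a multiplicative bound up to a small power of the order is a bound -/
theorem ineq_pow {ι : Type 1} (k δ N : ι → ℕ) (hδ : ∀ x, 1 ≤ δ x) (hN : ∀ x, 1 ≤ N x)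
    (hmul : ∀ x y, ∃ z, k z = k x * k y ∧ δ z = δ x * δ y ∧ N z = N x * N y)
    (h : ∀ n, ∃ C : ℕ, ∀ x, k x ^ n ≤ C * (δ x ^ n * N x)) (x : ι) : k x ≤ δ x := by
  by_contra hx
  push Not at hx
  have hpow : ∀ M : ℕ, 1 ≤ M → ∃ z, k z = k x ^ M ∧ δ z = δ x ^ M ∧ N z = N x ^ M := by
    intro M hM
    induction M, hM using Nat.le_induction with
    | base => exact ⟨x, (pow_one _).symm, (pow_one _).symm, (pow_one _).symm⟩
    | succ M _ ih =>
        obtain ⟨y, h1, h2, h3⟩ := ih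
        obtain ⟨z, h4, h5, h6⟩ := hmul y x
        exact ⟨z, by rw [h4, h1, pow_succ], by rw [h5, h2, pow_succ], by rw [h6, h3, pow_succ]⟩
  have h1 : 2 * δ x ^ δ x ≤ k x ^ δ x :=
    (two_mul_pow_le (hδ x)).trans (Nat.pow_le_pow_left hx _)
  obtain ⟨m, hm⟩ : ∃ m, 2 * N x ≤ 2 ^ m := ⟨2 * N x, (Nat.lt_pow_self (by omega)).le⟩
  have h2 : 2 ^ m * δ x ^ (δ x * m) ≤ k x ^ (δ x * m) := by
    rw [pow_mul, pow_mul, ← mul_pow]
    exact Nat.pow_le_pow_left h1 m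
  obtain ⟨C, hC⟩ := h (δ x * m)
  have h3 : ∀ M, 1 ≤ M → 2 ^ M ≤ C := by
    intro M hM
    obtain ⟨z, h4, h5, h6⟩ := hpow M hM
    have h7 := hC z
    rw [h4, h5, h6] at h7
    have h8 : (2 ^ m * δ x ^ (δ x * m)) ^ M ≤ (k x ^ M) ^ (δ x * m) := by
      have h12 : (k x ^ M) ^ (δ x * m) = (k x ^ (δ x * m)) ^ M := by
        rw [← pow_mul, ← pow_mul, mul_comm M]
      rw [h12]
      exact Nat.pow_le_pow_left h2 M
    have h9 : (2 * N x) ^ M * (δ x ^ M) ^ (δ x * m) ≤ (2 ^ m * δ x ^ (δ x * m)) ^ M := by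
      have h12 : (δ x ^ M) ^ (δ x * m) = (δ x ^ (δ x * m)) ^ M := by
        rw [← pow_mul, ← pow_mul, mul_comm M]
      rw [h12, mul_pow (2 ^ m)]
      exact Nat.mul_le_mul_right _ (Nat.pow_le_pow_left hm M)
    have h10 := (h9.trans h8).trans h7
    have h11 : 2 ^ M * (N x ^ M * (δ x ^ M) ^ (δ x * m)) ≤
        C * (N x ^ M * (δ x ^ M) ^ (δ x * m)) := by
      calc 2 ^ M * (N x ^ M * (δ x ^ M) ^ (δ x * m))
          = (2 * N x) ^ M * (δ x ^ M) ^ (δ x * m) := by rw [mul_pow]; ring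
        _ ≤ C * ((δ x ^ M) ^ (δ x * m) * N x ^ M) := h10
        _ = _ := by ring
    exact Nat.le_of_mul_le_mul_right h11
      (Nat.mul_pos (Nat.pow_pos (hN x)) (Nat.pow_pos (Nat.pow_pos (hδ x))))
  have h4 := h3 (C + 1) (by omega)
  have h5 : C + 1 < 2 ^ (C + 1) := Nat.lt_pow_self (by omega)
  omega

end Pool.Agent.Q17.RB
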