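import Pool.Agent.Q17.RB.Stm
import Pool.Agent.Q18.EQ.StmB

/-!
# Further statements of project RB
-/

set_option autoImplicit false

open scoped Classical

noncomputable section

namespace Pool.Agent.Q17.RB

open Pool.Agent.H254R3.IN hiding NN
open Pool.Agent.Q17.WR
open Pool.Agent.Q17.DC
open Pool.Agent.Q17.AM

/-- the members of `X` with values fixed by all `s ∈ K` -/
def FxS {G : Type} (X : Set (G → ℂ)) (K : Set (ℂ ≃+* ℂ)) : Set (G → ℂ) :=
  {χ | χ ∈ X ∧ ∀ s ∈ K, ∀ g, s (χ g) = χ g}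

/-- JOB RTK (`t_RTK : S_FXI → S_FXB → S_TRA → S_FXC → S_GCB → S_HT → S_FMT → S_RTK`). This is `S_RAT` with
the numbers of characters fixed by all members of a set `K` of automorphisms. Proof: copy the proof of
`t_RAT` in `Q66.RB.Rat` (use its lemmas); the only change is in the last part: as
`Fxd (Irr0 p (Da A D) (FX γ)) s = FX (fun ω => Fxd (Irr0 p D (γ ω)) s)` for every `s ∈ K` (`Fxd_FX`; for
`K` empty use `s = 1`), and `f ↦ nca f` is injective (`S_FXI`), also
`FxS (Irr0 p (Da A D) (FX γ)) K = FX (fun ω => FxS (Irr0 p D (γ ω)) K)`; then `FX_ncard`, and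
`FxS (Irr0 p D (gc k B)) K = gc k (FxS (Irr0 p D B) K)`, as in `FX_count`. -/
def S_RTK : Prop := ∀ (G : Type) [Group G] [Fintype G] (p : ℕ) [Fact p.Prime]
  (O : ValuationSubring ℂ), (p : ℂ) ∈ O.nonunits → ∀ (B : Set (G → ℂ)) (D : Subgroup G)
  (b : Set (NN D → ℂ)), Dt p O B D b → ∃ (A : Type) (_ : CommGroup A) (_ : Fintype A)
  (β : A → Set (G → ℂ)) (b' : Set (NN (Da A D) → ℂ)), β 1 = B ∧
  Dt p O (FX β) (Da A D) b' ∧ Gst (FX β) ∧ Gst b' ∧
  (FX β).ncard = B.ncard ^ Fintype.card A ∧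
  ∀ K : Set (ℂ ≃+* ℂ), (∀ s ∈ K, St s B) → (∀ s ∈ K, St s b) →
  (FxS (Irr0 p (Da A D) (FX β)) K).ncard = (FxS (Irr0 p D B) K).ncard ^ Fintype.card A ∧
  (FxS (Irr0 p ((Da A D).subgroupOf (NN (Da A D))) b') K).ncard =
    (FxS (Irr0 p (D.subgroupOf (NN D)) b) K).ncard ^ Fintype.card A

/-- JOB MKS (`t_MKS : Pool.Agent.Q18.EQ.S_BURN → S_MKS`; `S_BURN` is proved in `Q285.EQ.Burn`).
Burnside's theorem on marks for sets of functions and automorphisms of `ℂ`. Proof. Every `s ∈ S` gives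
a permutation of the finite set `X`, `χ ↦ s ∘ χ` (`St s X`: it is injective, and it maps `X` onto `X`), and
one of `Y`. Let `P` be the set of the pairs of permutations obtained from the `s ∈ S` in the finite group
`Equiv.Perm X × Equiv.Perm Y`; as `S` is closed under products and not empty, `P` is closed under
products, hence a subgroup of this finite group. `P` acts on `X` and on `Y`; use `S_BURN` with `C = Unit`.
For a subgroup `H` of `P` let `K` be the set of the `s ∈ S` whose pair is in `H`; the points of `X` fixed by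
`H` are the members of `FxS X K`, and the same for `Y`. -/
def S_MKS : Prop := ∀ (G H : Type) (X : Set (G → ℂ)) (Y : Set (H → ℂ)), X.Finite → Y.Finite →
  ∀ S : Set (ℂ ≃+* ℂ), (1 : ℂ ≃+* ℂ) ∈ S → (∀ s ∈ S, ∀ t ∈ S, s * t ∈ S) →
  (∀ s ∈ S, St s X ∧ St s Y) → (∀ K : Set (ℂ ≃+* ℂ), K ⊆ S → (FxS X K).ncard = (FxS Y K).ncard) →
  ∃ e : X ≃ Y, ∀ s ∈ S, ∀ χ χ' : X, (χ'.1 = fun g => s (χ.1 g)) →
    (e χ').1 = fun g => s ((e χ).1 g)

end Pool.Agent.Q17.RB
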