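import Pool.Agent.Q17.RB.Stm
import Pool.Agent.Q17.AM.Stm4

/-!
# Statements of project RB on Brauer characters and weights

`Wr G A A` is the regular wreath product, `FX β` the block over different blocks `β ω` (`S_FXB`), `lB` is
the number of irreducible Brauer characters in a block (the rank of the restrictions to the `p`-regular
elements), `nW` the number of conjugacy classes of weights. The proofs for the block `LX B` of `Wc G r`
are in `Q190.AM.LLX`, `Q190.AM.LGX` (`lB`) and `Q154.AM.*` (`nW`), those for `FX` of characters of height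
zero in `Q66.RB.*`, `Q210.RB.*`.
-/

set_option autoImplicit false

open scoped Classical

noncomputable section

namespace Pool.Agent.Q17.RB

open Pool.Agent.H254R3.IN hiding NN
open Pool.Agent.Q17.WR
open Pool.Agent.Q17.DC
open Pool.Agent.Q17.AM

/-- JOB LFX (`t_LFX : S_SECT → S_FXI → S_LFX`). The number of Brauer characters of `FX β`. Proof. For
`χ : G → ℂ` let `R χ x = 0` if `p ∣ orderOf x` and `R χ x = χ x` otherwise; `V ω` is the span of the
`R χ`, `χ ∈ β ω`. By `S_SECT` `V ω` is in the span of `β ω` (see `Q190.AM.LGX` or `Q261.DC.SPA`); as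
different blocks are disjoint and irreducible characters are linearly independent the subspaces `V ω`
are independent. `nca f` vanishes outside the base group `M`, and `x ∈ M` is `p`-regular if and only if
all `x.left ω` are; so `R (nca f) x = ∑ a, ∏ ω, R (f (a * ω)) (x.left ω)` on `M`. For every `ω` choose a
basis `Y ω` of `V ω` consisting of some `R χ`, `χ ∈ β ω` (`exists_linearIndependent`). By multilinearity
the span for `FX β` is the span of the functions `N g = (x ↦ ∑ a, ∏ ω, g (a * ω) (x.left ω)` on `M`, `0`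
outside`)`, `g ω ∈ Y ω`. They are linearly independent: the union `Y` of the `Y ω` is a linearly
independent set, so the functions `∏ ω, h ω (m ω)` of `m : A → G`, `h : A → Y`, are linearly independent
(this is used in `Q190.AM.LLX`, see `Q190.AM.Lin`), and the families `ω ↦ g (a * ω)` are different for
different pairs `(g, a)` (`g (a * 1) ∈ Y a` determines `a`, then `g`). So the dimension is
`∏ ω, |Y ω|`. -/
def S_LFX : Prop := ∀ (G A : Type) [Group G] [Fintype G] [Group A] [Fintype A] (p : ℕ)
  [Fact p.Prime] (O : ValuationSubring ℂ), (p : ℂ) ∈ O.nonunits → ∀ β : A → Set (G → ℂ),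
  (∀ ω, IsBlock O (β ω)) → Function.Injective β → lB p (FX β) = ∏ ω, lB p (β ω)

/-- the product of the subgroups `Q ω` -/
def Pa {G A : Type} [Group G] [Group A] (Q : A → Subgroup G) : Subgroup (Wr G A A) where
  carrier := {x | x.right = 1 ∧ ∀ ω, x.left ω ∈ Q ω}
  one_mem' := ⟨rfl, fun ω => (Q ω).one_mem⟩
  mul_mem' := by
    rintro x y ⟨hx, hx'⟩ ⟨hy, hy'⟩
    refine ⟨by rw [SemidirectProduct.mul_right, hx, hy, one_mul], fun ω => ?_⟩
    have h : (x * y).left ω = x.left ω * y.left (x.right⁻¹ * ω) := rfl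
    rw [h, hx, inv_one, one_mul]
    exact (Q ω).mul_mem (hx' ω) (hy' ω)
  inv_mem' := by
    rintro x ⟨hx, hx'⟩
    refine ⟨by rw [SemidirectProduct.inv_right, hx, inv_one], fun ω => ?_⟩
    have h : (x⁻¹).left ω = (x.left (x.right * ω))⁻¹ := by
      change (x.left ((x.right⁻¹)⁻¹ * ω))⁻¹ = _
      rw [inv_inv]
    rw [h, hx, one_mul]
    exact (Q ω).inv_mem (hx' ω)

/-- JOB NFA (`t_NFA : S_FXB → S_MMX → S_NFA`). The subgroups in weights of `FX β` are products; `p` may
divide `|A|`. Proof. Let `(Q, φ)` be a weight, `M` the base group of `Γ = Wr G A A`. (1) `Q ≤ M`: let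
`E = blockCoeff (FX β)`, `χ ∈ FX β`; `Om E χ = 1` (`Om_blockCoeff`) and `ind` give
`Om (E restricted to N_Γ(Q)) φ ∉ O.nonunits` (as in the proof of `t_DZB` in `Q14.AM.DZB`), and as `Q` is a
normal `p`-subgroup of `N_Γ(Q)` there is `x ∈ C_Γ(Q)` with `E x ∉ O.nonunits` (`lam_zero`, `rs_conv` in
`Q176.DC.BRD`, see `Q14.AM.DZB`). By `S_MMX` for the block `FX β` with the defect group `Da A D`
(`S_FXB`) `Q` is conjugate to a subgroup of `Da A D ≤ M`, and `M` is normal. (2) `Q` is the product of its
projections: this is the proof of `t_WPQ` in `Q154.AM.WPQ` (there `p ≠ r` is only used for (1)): let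
`N = N_Γ(Q)`, `N₀ = N ⊓ M`, `φ₀` a constituent of `φ` on `N₀`. `φ 1 / φ₀ 1` divides `|N : N₀|` (Clifford:
`φ` restricted to `N₀` is `e` times the sum of the `t` conjugates of `φ₀`, and `e t` divides `|N : N₀|`;
or, avoiding this: if `R` is a normal `p`-subgroup of `N₀` which contains `Q`, then the subgroup `S`
generated by the conjugates of `R` under `N` is a `p`-subgroup, normal in `N`, as `O_p(N₀)` is
characteristic in `N₀`; so `S = Q` since `O_p(N / Q) = 1` for a group with a character of defect zero,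
`defectZero_normal` in `Y63.KR.Limit`, `le_of_wt` in `Q154.AM.WPQ`). So every normal `p`-subgroup of
`N₀` is in `Q`. Let `Q'` be the product of the projections of `Q`, a `p`-group containing `Q` and
normalised by `N₀`; `N_{Q'}(Q) = Q' ⊓ N₀` is a normal `p`-subgroup of `N₀`, so it is `Q`, and `Q' = Q` by
the normaliser condition. -/
def S_NFA : Prop := ∀ (G A : Type) [Group G] [Fintype G] [Group A] [Fintype A] (p : ℕ)
  [Fact p.Prime] (O : ValuationSubring ℂ), (p : ℂ) ∈ O.nonunits → ∀ β : A → Set (G → ℂ),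
  (∀ ω, IsBlock O (β ω)) → Function.Injective β → ∀ D : Subgroup G,
  (∀ ω, IsDefectGroup p O (β ω) D) → ∀ (Q : Subgroup (Wr G A A))
  (φ : Subgroup.normalizer (Q : Set (Wr G A A)) → ℂ), IsWt p O (FX β) Q φ →
  ∃ Q' : A → Subgroup G, Q = Pa Q'

/-- the number of the weights of `B` with the subgroup `Q` (this is `nwt` in `Q154.AM.Nwt`) -/
def nwq {G : Type} [Group G] (p : ℕ) (O : ValuationSubring ℂ) (B : Set (G → ℂ))
    (Q : Subgroup G) : ℕ :=
  Nat.card {φ : Subgroup.normalizer (Q : Set G) → ℂ // IsWt p O B Q φ}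

/-- JOB NFB (`t_NFB : S_ZPR → S_FXI → S_FXB → S_NFB`). The number of the weights of `FX β` with the
subgroup `Pa Q'`. Proof. Let `Γ = Wr G A A`, `M` the base group, `N = N_Γ(Pa Q')`,
`N₀ = N ⊓ M`, the product of the `N_G(Q' ω)`. Let `Θ` be the set of the irreducible characters `θ` of `N₀`
which are products of irreducible characters `f ω` of `N_G(Q' ω)` (all are, `Q154.AM.Prd`) such that for
some `a ∈ A` `(Q' ω, f ω)` is a weight of `β (a * ω)` for all `ω`. `a` is unique: if `(Q' ω, f ω)` is a
weight of `β (a * ω)` and of `β (a' * ω)` these blocks have congruent central characters, so they are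
equal, `a = a'`. So `|Θ| = ∑ a, ∏ ω, nwq (β (a * ω)) (Q' ω)`. (1) `N` acts on `Θ` by conjugation, and the
stabiliser of every `θ` is `N₀`: conjugation by `x` with `x.right = b` changes `a` to `a * b` or similar
(the induced blocks of the components are permuted by `b`), and `b ≠ 1` changes `a`. (2) So the induced
character `θ^N` is irreducible for `θ ∈ Θ`, and two are equal if and only if the `θ` are conjugate
(the norm, as in `S_FXI`, `Q210.RB.FXI`). (3) `θ^N` is a weight of `FX β` with the subgroup `Pa Q'`: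
kernel and degree are clear (`|N : N₀|` times the degree of `θ`; equality of the `p`-parts also if `p`
divides `|N : N₀|`). `ind`: `θ^N` and `nca f` vanish outside `M`. Let `x ∈ M`. The sum over the `y ∈ N`
conjugate to `x` in `Γ` of `θ^N y / θ^N 1` is the sum over the same `y` (all in `N₀`) of `θ y / θ 1` (the
set of the `y` is stable under `N`), and this is the sum over the classes `K` of `M` in the class of `x`
of the products over `ω` of the sums for `K ω` and `f ω`, congruent to
`∑ K, ∏ ω, (value of the central character of β (a * ω) at K ω)`, which is the central character of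
`FX β` at `x` by `S_FXB` (the classes `K` are permuted by `a`). (4) Every weight `(Pa Q', φ)` of `FX β` is
such a `θ^N`: let `θ = ∏ f ω` be a constituent of `φ` on `N₀`. Every `(Q' ω, f ω)` satisfies all conditions
for a weight except possibly `ind`; the degree: `φ 1` divides `|N : N₀| θ 1` ... it is enough that
`θ 1` has the `p`-part of `|N₀ / Q|` (from `φ 1 / θ 1` divides `|N : N₀|` and the fact that the `p`-part of
`θ 1` is at most that of `|N₀ / Q|`, `deg_le'` in `Q154.AM.Wti`; `φ = θ^N` once (1) holds, then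
`φ 1 = |N : N₀| θ 1`). For blocks: let `B ω` be the block of `G` induced by `f ω` (`exi` in
`Q154.AM.Ind`: it exists for `Q' ω` a `p`-group). Both `φ` and `χ ∈ FX β` have congruent sums for the class
function `E x = ∑ a, ∏ ω, blockCoeff (β ω) (x.left (a * ω))` (on `M`; this is `blockCoeff (FX β)`), which is
`1` for `χ`; for `φ` it is `∑ a, ∏ ω, Om (blockCoeff (β ω)) (B (a * ω))` up to `O.nonunits`, and a term
is `1` if `B (a * ω) = β ω` for all `ω` and `0` otherwise (see `mem_LX`, `ind_fwd`, `ind_bwd` in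
`Q154.AM.Ind`). So this is true for some `a`. (5) So `nwq (FX β) (Pa Q') * |N : N₀| = |Θ|`, and
`|N₀| = ∏ ω, |N_G(Q' ω)|`. -/
def S_NFB : Prop := ∀ (G A : Type) [Group G] [Fintype G] [Group A] [Fintype A] (p : ℕ)
  [Fact p.Prime] (O : ValuationSubring ℂ), (p : ℂ) ∈ O.nonunits → ∀ β : A → Set (G → ℂ),
  (∀ ω, IsBlock O (β ω)) → Function.Injective β → ∀ D : Subgroup G,
  (∀ ω, IsDefectGroup p O (β ω) D) → ∀ Q' : A → Subgroup G, (∀ ω, IsPGroup p (Q' ω)) →
  Nat.card (Subgroup.normalizer (Pa Q' : Set (Wr G A A))) * nwq p O (FX β) (Pa Q') =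
    ∑ a : A, ∏ ω, (Nat.card (Subgroup.normalizer (Q' ω : Set G)) * nwq p O (β (a * ω)) (Q' ω))

/-- JOB NFX (`t_NFX : S_NFA → S_NFB → S_NFX`). The number of the classes of weights of `FX β`. Proof.
`|G| * nW p O B = ∑ Q, |N_G(Q)| * nwq p O B Q` (sum over all subgroups; `nW_sum` in `Q154.AM.Nwt`). By
`S_NFA` only the `Pa Q'` contribute for `FX β` (`Pa` is injective; `nwq = 0` if `Q'` is not a family of
`p`-groups), by `S_NFB` the sum over the `Q'` is `∑ a, ∏ ω, (∑ Q, |N_G(Q)| * nwq (β (a * ω)) Q)`, which is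
`|A| * ∏ ω, (|G| * nW (β ω))`; and `|Wr G A A| = |A| * |G| ^ |A|`. -/
def S_NFX : Prop := ∀ (G A : Type) [Group G] [Fintype G] [Group A] [Fintype A] (p : ℕ)
  [Fact p.Prime] (O : ValuationSubring ℂ), (p : ℂ) ∈ O.nonunits → ∀ β : A → Set (G → ℂ),
  (∀ ω, IsBlock O (β ω)) → Function.Injective β → ∀ D : Subgroup G,
  (∀ ω, IsDefectGroup p O (β ω) D) → nW p O (FX β) = ∏ ω, nW p O (β ω)

/-- JOB GCW (`t_GCW : S_GCB → S_GCW`). Galois conjugates of blocks have the same numbers of Brauer
characters and of weights. Proof. Let `k k' ≡ 1` modulo `|G|`. `(f ↦ f ∘ (· ^ k))` is a bijective linear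
map of the space of functions (inverse `k'`) which maps the span in the definition of `lB p B` onto the
one for `gc k B` (`x` and `x ^ k` have the same order). `(Q, φ) ↦ (Q, φ ∘ (· ^ k))` maps the weights of `B`
to those of `gc k B`, with inverse `k'` (`gc k' (gc k B) = B`, see `Q66.RB.RatA`): `S_GCB` for the group
`N_G(Q)` gives `IsIrr`; `ker` and `defect` are clear; `ind`: `omega (χ ∘ pow k) x = omega χ (x ^ k)`, and
`y ↦ y ^ k` maps the `y ∈ N_G(Q)` conjugate to `x` onto those conjugate to `x ^ k`, as in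
`Q261.RB.GCB`. This respects conjugacy of weights. -/
def S_GCW : Prop := ∀ (G : Type) [Group G] [Fintype G] (p : ℕ) [Fact p.Prime]
  (O : ValuationSubring ℂ), (p : ℂ) ∈ O.nonunits → ∀ k : ℕ, Nat.Coprime k (Nat.card G) →
  ∀ B : Set (G → ℂ), IsBlock O B → lB p (gc k B) = lB p B ∧ nW p O (gc k B) = nW p O B

/-- JOB RWT (`t_RWT : S_FXI → S_FXB → S_GCB → S_MMX → S_LFX → S_NFX → S_GCW → S_RWT`). Reduction to
blocks stable under all Galois automorphisms. Proof: copy the first part of the proof of `t_RAT` in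
`Q66.RB.Rat` (it needs a defect group `D` of `B`: `S_MMX`; no Brauer correspondent): `A` is the quotient
of `(ZMod |G|)ˣ` by the stabiliser of `B`, `β (k U) = gc k B`; then use `S_LFX`, `S_NFX`, `S_GCW`. -/
def S_RWT : Prop := ∀ (G : Type) [Group G] [Fintype G] (p : ℕ) [Fact p.Prime]
  (O : ValuationSubring ℂ), (p : ℂ) ∈ O.nonunits → ∀ B : Set (G → ℂ), IsBlock O B →
  ∃ (A : Type) (_ : CommGroup A) (_ : Fintype A) (β : A → Set (G → ℂ)), β 1 = B ∧
  IsBlock O (FX β) ∧ Gst (FX β) ∧ (FX β).ncard = B.ncard ^ Fintype.card A ∧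
  (∀ D : Subgroup G, IsDefectGroup p O B D → IsDefectGroup p O (FX β) (Da A D)) ∧
  lB p (FX β) = lB p B ^ Fintype.card A ∧ nW p O (FX β) = nW p O B ^ Fintype.card A

end Pool.Agent.Q17.RB
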