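import Pool.Agent.Q17.RB.Wgt
import Pool.Agent.Q53.RB.LFX
import Pool.Agent.Q53.RB.NFA
import Pool.Agent.Q53.RB.NFX
import Pool.Agent.Q53.RB.GCW
import Pool.Agent.Q53.RB.RWT
import Pool.Agent.Q176.RB.NFB

/-!
# Weights: reduction to Galois-stable blocks
-/

set_option autoImplicit false

open scoped Classical

noncomputable section

namespace Pool.Agent.Q17.RB

open Pool.Agent.H254R3.IN hiding NN
open Pool.Agent.Q17.WR Pool.Agent.Q17.AM Pool.Agent.Q17.DC

theorem p_lfx : S_LFX := Pool.Agent.Q53.RB.t_LFX s_sect p_fxi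
theorem p_nfa : S_NFA := Pool.Agent.Q53.RB.t_NFA p_fxb p_mmx
theorem p_nfb : S_NFB := Pool.Agent.Q176.RB.t_NFB p_zpr p_fxi p_fxb
theorem p_nfx : S_NFX := Pool.Agent.Q53.RB.t_NFX p_nfa p_nfb
theorem p_gcw : S_GCW := Pool.Agent.Q53.RB.t_GCW p_gcb
theorem p_rwt : S_RWT := Pool.Agent.Q53.RB.t_RWT p_fxi p_fxb p_gcb p_mmx p_lfx p_nfx p_gcw

/-- the weight conjecture for all blocks from congruences for Galois-stable blocks -/
theorem bw_all {p r : ℕ} [Fact p.Prime] [Fact r.Prime] (hpr : p ≠ r) {O : ValuationSubring ℂ}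
    (hO : (p : ℂ) ∈ O.nonunits) (C : ∀ (G : Type) [Group G], Subgroup G → Prop)
    (hC : ∀ (G : Type) [Group G] [Fintype G] (D : Subgroup G), C G D → C (Wc G r) (Dw r D))
    (hC' : ∀ (G : Type) [Group G] [Fintype G] (D : Subgroup G) (A : Type) [CommGroup A]
      [Fintype A], C G D → C (Wr G A A) (Da A D))
    (h : ∀ (G : Type) [Group G] [Fintype G] (B : Set (G → ℂ)) (D : Subgroup G), IsBlock O B →
      IsDefectGroup p O B D → Gst B → C G D → (r : ℤ) ∣ (lB p B : ℤ) - (nW p O B : ℤ))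
    (G : Type) [Group G] [Fintype G] (B : Set (G → ℂ)) (D : Subgroup G) (hB : IsBlock O B)
    (hD : IsDefectGroup p O B D) (hc : C G D) : lB p B = nW p O B := by
  obtain ⟨A, _, _, β, -, h1, h2, -, h3, h4, h5⟩ := p_rwt G p O hO B hB
  have hfin : Finite (Wr G A A) := Finite.of_equiv _ SemidirectProduct.equivProd.symm
  have : Fintype (Wr G A A) := Fintype.ofFinite _
  have h6 := bw_gst hpr hO C hC h (Wr G A A) (FX β) (Da A D) h1 (h3 D hD) h2 (hC' G D A hc)
  rw [h4, h5] at h6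
  exact Nat.pow_left_injective Fintype.card_ne_zero h6

end Pool.Agent.Q17.RB
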