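import Pool.Agent.Q17.RB.Wgf
import Pool.Agent.Q237.AM.Bas

/-!
# Weights: growth
-/

set_option autoImplicit false

open scoped Classical

noncomputable section

namespace Pool.Agent.Q17.RB

open Pool.Agent.H254R3.IN hiding NN
open Pool.Agent.Q17.WR Pool.Agent.Q17.AM Pool.Agent.Q17.DC

/-- exponential growth against a power -/
lemma exp_beats (C k p : ℕ) : ∃ r : ℕ, r.Prime ∧ r ≠ p ∧ C * r ^ k < 2 ^ r := by
  have h1 : Filter.Tendsto (fun n : ℕ => (n : ℝ) ^ k / (2 : ℝ) ^ n) Filter.atTop (nhds 0) :=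
    tendsto_pow_const_div_const_pow_of_one_lt k (by norm_num)
  have h2 : (0 : ℝ) < 1 / (C + 1) := by positivity
  obtain ⟨N, hN⟩ := Filter.eventually_atTop.mp (h1.eventually (gt_mem_nhds h2))
  obtain ⟨r, hr, hrp⟩ := Nat.exists_infinite_primes (max N (p + 1))
  refine ⟨r, hrp, ?_, ?_⟩
  · have := (le_max_right N (p + 1)).trans hr
    omega
  · have h3 := hN r ((le_max_left _ _).trans hr)
    rw [div_lt_div_iff₀ (by positivity) (by positivity), one_mul] at h3
    have h4 : r ^ k * (C + 1) < 2 ^ r := by exact_mod_cast h3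
    have h5 : C * r ^ k ≤ r ^ k * (C + 1) := by nlinarith [Nat.zero_le (r ^ k)]
    exact lt_of_le_of_lt h5 h4

/-- the arithmetic of the growth argument -/
theorem num_growth {p l w g : ℕ} (hlw : w < l)
    (h : ∀ n : ℕ, ∃ C : ℕ, ∀ r : ℕ, r.Prime → r ≠ p → ∀ l' w' : ℕ,
      (r : ℤ) * l' = (l : ℤ) ^ r + ((r : ℤ) ^ 2 - 1) * l →
      (r : ℤ) * w' = (w : ℤ) ^ r + ((r : ℤ) ^ 2 - 1) * w → l' ^ n ≤ C * (w' ^ n * (g ^ r * r)))
    (hex : ∀ r : ℕ, r.Prime → r ≠ p → ∃ l' w' : ℕ,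
      (r : ℤ) * l' = (l : ℤ) ^ r + ((r : ℤ) ^ 2 - 1) * l ∧
      (r : ℤ) * w' = (w : ℤ) ^ r + ((r : ℤ) ^ 2 - 1) * w) : False := by
  -- choose the exponent
  obtain ⟨n, hn1, hn⟩ : ∃ n : ℕ, 1 ≤ n ∧ 2 * (w ^ n * g) < l ^ n := by
    rcases Nat.eq_zero_or_pos w with hw | hw
    · refine ⟨1, le_rfl, ?_⟩
      rw [hw, pow_one, zero_mul, mul_zero, pow_one]
      omega
    · have h1 : Filter.Tendsto (fun n : ℕ => ((l : ℝ) / w) ^ n) Filter.atTop Filter.atTop := by
        refine tendsto_pow_atTop_atTop_of_one_lt ?_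
        rw [one_lt_div (by exact_mod_cast hw)]
        exact_mod_cast hlw
      obtain ⟨N, hN⟩ := Filter.eventually_atTop.mp (h1.eventually_gt_atTop ((2 * g : ℕ) : ℝ))
      refine ⟨max N 1, le_max_right _ _, ?_⟩
      have h2 := hN (max N 1) (le_max_left _ _)
      rw [div_pow, lt_div_iff₀ (by positivity)] at h2
      have h3 : 2 * g * w ^ (max N 1) < l ^ (max N 1) := by exact_mod_cast h2
      calc 2 * (w ^ (max N 1) * g) = 2 * g * w ^ (max N 1) := by ring
        _ < _ := h3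
  obtain ⟨C, hC⟩ := h n
  obtain ⟨r, hr, hrp, hbig⟩ := exp_beats C (2 * n + 1) p
  obtain ⟨l', w', hl', hw'⟩ := hex r hr hrp
  have h1 := hC r hr hrp l' w' hl' hw'
  have hr2 := hr.two_le
  -- lower bound
  have h2 : l ^ r ≤ r * l' := by
    have h3 : (l : ℤ) ^ r ≤ (r : ℤ) * l' := by
      rw [hl']
      have : (0 : ℤ) ≤ ((r : ℤ) ^ 2 - 1) * l := by
        have h4 : (1 : ℤ) ≤ (r : ℤ) ^ 2 := by
          have : (2 : ℤ) ≤ r := by exact_mod_cast hr2
          nlinarith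
        have h5 : (0 : ℤ) ≤ l := Int.natCast_nonneg l
        nlinarith
      linarith
    exact_mod_cast h3
  -- upper bound
  have h3 : r * w' ≤ r ^ 2 * w ^ r := by
    have h4 : (w : ℤ) ≤ (w : ℤ) ^ r := by
      rcases Nat.eq_zero_or_pos w with hw | hw
      · rw [hw, Nat.cast_zero]
        positivity
      · have : w ^ 1 ≤ w ^ r := Nat.pow_le_pow_right hw (by omega)
        rw [pow_one] at this
        exact_mod_cast this
    have h5 : (r : ℤ) * w' ≤ (r : ℤ) ^ 2 * (w : ℤ) ^ r := by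
      rw [hw']
      have h6 : (0 : ℤ) ≤ (r : ℤ) ^ 2 - 1 := by
        have : (2 : ℤ) ≤ r := by exact_mod_cast hr2
        nlinarith
      nlinarith [mul_le_mul_of_nonneg_left h4 h6]
    exact_mod_cast h5
  have h4 : (l ^ r) ^ n ≤ C * ((r * w') ^ n * (g ^ r * r)) := by
    calc (l ^ r) ^ n ≤ (r * l') ^ n := Nat.pow_le_pow_left h2 n
      _ = r ^ n * l' ^ n := mul_pow _ _ _
      _ ≤ r ^ n * (C * (w' ^ n * (g ^ r * r))) := Nat.mul_le_mul_left _ h1
      _ = C * ((r * w') ^ n * (g ^ r * r)) := by rw [mul_pow]; ring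
  have h5 : (l ^ n) ^ r ≤ C * r ^ (2 * n + 1) * (w ^ n * g) ^ r := by
    calc (l ^ n) ^ r = (l ^ r) ^ n := by rw [← pow_mul, ← pow_mul, mul_comm]
      _ ≤ C * ((r * w') ^ n * (g ^ r * r)) := h4
      _ ≤ C * ((r ^ 2 * w ^ r) ^ n * (g ^ r * r)) :=
          Nat.mul_le_mul_left _ (Nat.mul_le_mul_right _ (Nat.pow_le_pow_left h3 n))
      _ = C * r ^ (2 * n + 1) * (w ^ n * g) ^ r := by
          rw [mul_pow, ← pow_mul, ← pow_mul, mul_pow, ← pow_mul, mul_comm r n]
          ring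
  have h6 : (2 * (w ^ n * g)) ^ r ≤ (l ^ n) ^ r := Nat.pow_le_pow_left hn.le r
  rw [mul_pow] at h6
  rcases Nat.eq_zero_or_pos (w ^ n * g) with h7 | h7
  · rw [h7, zero_pow hr.ne_zero, mul_zero] at h5
    have h8 : 0 < l ^ n := lt_of_le_of_lt (Nat.zero_le _) hn
    have h9 : 0 < (l ^ n) ^ r := pow_pos h8 r
    omega
  · have h8 : 2 ^ r * (w ^ n * g) ^ r ≤ C * r ^ (2 * n + 1) * (w ^ n * g) ^ r := h6.trans h5
    have h9 : 0 < (w ^ n * g) ^ r := pow_pos h7 r
    have h10 := Nat.le_of_mul_le_mul_right h8 h9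
    omega

/-- both numbers of weights and of Brauer characters, in the two orders -/
def lw (b : Bool) (p : ℕ) (O : ValuationSubring ℂ) {G : Type} [Group G] (B : Set (G → ℂ)) : ℕ :=
  if b then lB p B else nW p O B

lemma lw_LX {p r : ℕ} [Fact p.Prime] [Fact r.Prime] (hpr : p ≠ r) {O : ValuationSubring ℂ}
    (hO : (p : ℂ) ∈ O.nonunits) (b : Bool) (G : Type) [Group G] [Fintype G] (B : Set (G → ℂ))
    (hB : IsBlock O B) (hP : Pos O B) : (r : ℤ) * (lw b p O (LX (r := r) B) : ℤ) =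
      (lw b p O B : ℤ) ^ r + ((r : ℤ) ^ 2 - 1) * (lw b p O B : ℤ) := by
  cases b
  · exact p_nwx G p r hpr O hO B hB hP
  · exact p_llx G p r hpr B

/-- the growth argument for Galois-stable blocks -/
theorem grow_gst {p : ℕ} [Fact p.Prime] {O : ValuationSubring ℂ} (hO : (p : ℂ) ∈ O.nonunits)
    (b : Bool) (C : ∀ (G : Type) [Group G], Subgroup G → Prop)
    (hC : ∀ (r : ℕ) [Fact r.Prime], p ≠ r → ∀ (G : Type) [Group G] [Fintype G] (D : Subgroup G),
      C G D → C (Wc G r) (Dw r D))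
    (h : ∀ n : ℕ, ∃ K : ℕ, ∀ (G : Type) [Group G] [Fintype G] (B : Set (G → ℂ))
      (D : Subgroup G), IsBlock O B → IsDefectGroup p O B D → Gst B → C G D →
      lw b p O B ^ n ≤ K * (lw (!b) p O B ^ n * Nat.card G))
    (G : Type) [Group G] [Fintype G] (B : Set (G → ℂ)) (D : Subgroup G) (hB : IsBlock O B)
    (hD : IsDefectGroup p O B D) (hg : Gst B) (hc : C G D) : lw b p O B ≤ lw (!b) p O B := by
  by_cases hP : Pos O B
  · by_contra hlt
    push Not at hlt
    refine num_growth (p := p) (g := Nat.card G) hlt ?_ ?_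
    · intro n
      obtain ⟨K, hK⟩ := h n
      refine ⟨K, fun r hr hrp l' w' hl' hw' => ?_⟩
      have : Fact r.Prime := ⟨hr⟩
      have hfin : Finite (Wc G r) := Pool.Agent.Q24.AM.finite_wc G r
      have : Fintype (Wc G r) := Fintype.ofFinite _
      have h1 := p_blk G p r hrp.symm O hO B hB hP
      have h2 := hK (Wc G r) (LX (r := r) B) (Dw r D) h1.1 (h1.2.2 D hD) (gst_lx hg)
        (hC r hrp.symm G D hc)
      have hr0 : (r : ℤ) ≠ 0 := by exact_mod_cast hr.ne_zero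
      have h3 : l' = lw b p O (LX (r := r) B) := by
        have := mul_left_cancel₀ hr0 (hl'.trans (lw_LX hrp.symm hO b G B hB hP).symm)
        exact_mod_cast this
      have h4 : w' = lw (!b) p O (LX (r := r) B) := by
        have := mul_left_cancel₀ hr0 (hw'.trans (lw_LX hrp.symm hO (!b) G B hB hP).symm)
        exact_mod_cast this
      rw [← h3, ← h4, Pool.Agent.Q237.AM.card_wc] at h2
      exact h2
    · intro r hr hrp
      have : Fact r.Prime := ⟨hr⟩
      exact ⟨_, _, lw_LX hrp.symm hO b G B hB hP, lw_LX hrp.symm hO (!b) G B hB hP⟩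
  · obtain ⟨h1, h2⟩ := p_dzb G p O hO B hB hP
    cases b
    · change nW p O B ≤ lB p B
      rw [h1, h2]
    · change lB p B ≤ nW p O B
      rw [h1, h2]

/-- the growth argument for all blocks -/
theorem grow_all {p : ℕ} [Fact p.Prime] {O : ValuationSubring ℂ} (hO : (p : ℂ) ∈ O.nonunits)
    (b : Bool) (C : ∀ (G : Type) [Group G], Subgroup G → Prop)
    (hC : ∀ (r : ℕ) [Fact r.Prime], p ≠ r → ∀ (G : Type) [Group G] [Fintype G] (D : Subgroup G),
      C G D → C (Wc G r) (Dw r D))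
    (hC' : ∀ (G : Type) [Group G] [Fintype G] (D : Subgroup G) (A : Type) [CommGroup A]
      [Fintype A], C G D → C (Wr G A A) (Da A D))
    (h : ∀ n : ℕ, ∃ K : ℕ, ∀ (G : Type) [Group G] [Fintype G] (B : Set (G → ℂ))
      (D : Subgroup G), IsBlock O B → IsDefectGroup p O B D → Gst B → C G D →
      lw b p O B ^ n ≤ K * (lw (!b) p O B ^ n * Nat.card G))
    (G : Type) [Group G] [Fintype G] (B : Set (G → ℂ)) (D : Subgroup G) (hB : IsBlock O B)
    (hD : IsDefectGroup p O B D) (hc : C G D) : lw b p O B ≤ lw (!b) p O B := by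
  obtain ⟨A, _, _, β, -, h1, h2, -, h3, h4, h5⟩ := p_rwt G p O hO B hB
  have hfin : Finite (Wr G A A) := Finite.of_equiv _ SemidirectProduct.equivProd.symm
  have : Fintype (Wr G A A) := Fintype.ofFinite _
  have h6 := grow_gst hO b C hC h (Wr G A A) (FX β) (Da A D) h1 (h3 D hD) h2 (hC' G D A hc)
  have h7 : ∀ c : Bool, lw c p O (FX β) = lw c p O B ^ Fintype.card A := by
    intro c
    cases c
    · exact h5
    · exact h4
  rw [h7, h7] at h6
  exact (Nat.pow_le_pow_iff_left Fintype.card_ne_zero).mp h6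

end Pool.Agent.Q17.RB
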