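import Pool.Agent.Q17.AM.Fin2
import Pool.Agent.Q17.RB.Stm3
import Pool.Agent.Q24.AM.BWR
import Pool.Agent.Q190.AM.LLX
import Pool.Agent.Q154.AM.NWX
import Pool.Agent.Q14.AM.DZB

/-!
# Weights: congruences for Galois-stable blocks
-/

set_option autoImplicit false

open scoped Classical

noncomputable section

namespace Pool.Agent.Q17.RB

open Pool.Agent.H254R3.IN hiding NN
open Pool.Agent.Q17.WR Pool.Agent.Q17.AM Pool.Agent.Q17.DC

theorem p_wpq : S_WPQ := Pool.Agent.Q154.AM.t_WPQ
theorem p_llx : S_LLX := Pool.Agent.Q190.AM.t_LLX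
theorem p_nwx : S_NWX := Pool.Agent.Q154.AM.t_NWX p_cls p_ccl p_blk p_wpq
theorem p_dzb : S_DZB := Pool.Agent.Q14.AM.t_DZB s_sect p_mmx

/-- the weight conjecture modulo `r` for the Galois-stable blocks in a class -/
theorem bw_gst {p r : ℕ} [Fact p.Prime] [Fact r.Prime] (hpr : p ≠ r) {O : ValuationSubring ℂ}
    (hO : (p : ℂ) ∈ O.nonunits) (C : ∀ (G : Type) [Group G], Subgroup G → Prop)
    (hC : ∀ (G : Type) [Group G] [Fintype G] (D : Subgroup G), C G D → C (Wc G r) (Dw r D))
    (h : ∀ (G : Type) [Group G] [Fintype G] (B : Set (G → ℂ)) (D : Subgroup G), IsBlock O B →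
      IsDefectGroup p O B D → Gst B → C G D → (r : ℤ) ∣ (lB p B : ℤ) - (nW p O B : ℤ))
    (G : Type) [Group G] [Fintype G] (B : Set (G → ℂ)) (D : Subgroup G) (hB : IsBlock O B)
    (hD : IsDefectGroup p O B D) (hg : Gst B) (hc : C G D) : lB p B = nW p O B := by
  have key : ∀ j : ℕ, 1 ≤ j → ∀ (G : Type) [Group G] [Fintype G] (B : Set (G → ℂ))
      (D : Subgroup G), IsBlock O B → IsDefectGroup p O B D → Gst B → C G D →
      (r : ℤ) ^ j ∣ (lB p B : ℤ) - (nW p O B : ℤ) := by
    intro j hj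
    induction j, hj using Nat.le_induction with
    | base =>
      intro G _ _ B D hB hD hg hc
      rw [pow_one]
      exact h G B D hB hD hg hc
    | succ j hj ih =>
      intro G _ _ B D hB hD hg hc
      have hfin : Finite (Wc G r) := Pool.Agent.Q24.AM.finite_wc G r
      let _ : Fintype (Wc G r) := Fintype.ofFinite _
      by_cases hP : Pos O B
      · have h1 := p_blk G p r hpr O hO B hB hP
        exact step_int (c := (r : ℤ) ^ 2 - 1) hj ⟨r, by ring⟩ (p_llx G p r hpr B)
          (p_nwx G p r hpr O hO B hB hP) (ih G B D hB hD hg hc)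
          (ih (Wc G r) (LX (r := r) B) (Dw r D) h1.1 (h1.2.2 D hD) (gst_lx hg) (hC G D hc))
      · obtain ⟨h1, h2⟩ := p_dzb G p O hO B hB hP
        rw [h1, h2, sub_self]
        exact dvd_zero _
  have h1 := zero_of_dvd (Fact.out : r.Prime).two_le (fun j hj => key j hj G B D hB hD hg hc)
  omega

end Pool.Agent.Q17.RB
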